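import Mathlib

open Polynomial

noncomputable section

namespace Pool.Agent.Results.MP_f969e6_lc.IsoDualNotSquare

/-- The trinomial `x^n + x^i + 1` over the field with two elements. -/
def tri (n i : ℕ) : (ZMod 2)[X] := X ^ n + X ^ i + 1

/-- The polynomial `c_0 + c_1 x + ... + c_{n-1} x^{n-1}` of a vector `c` of length `n`. -/
def toPoly {n : ℕ} (c : Fin n → ZMod 2) : (ZMod 2)[X] := ∑ k : Fin n, C (c k) * X ^ (k : ℕ)

/-- The polycyclic code generated by `g` with respect to `x^n + x^i + 1`: the vectors whose polynomial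
has its class in the ideal of `F_2[x]/(x^n + x^i + 1)` generated by the class of `g`. -/
def code (n i : ℕ) (g : (ZMod 2)[X]) : Set (Fin n → ZMod 2) :=
  {c | Ideal.Quotient.mk (Ideal.span {tri n i}) (toPoly c) ∈
    Ideal.span {Ideal.Quotient.mk (Ideal.span {tri n i}) g}}

/-- The dual code. -/
def dual {n : ℕ} (A : Set (Fin n → ZMod 2)) : Set (Fin n → ZMod 2) :=
  {u | ∀ c ∈ A, ∑ k, u k * c k = 0}

/-- A code is iso-dual if some permutation of the coordinates maps it onto its dual. -/
def IsoDual {n : ℕ} (A : Set (Fin n → ZMod 2)) : Prop :=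
  ∃ σ : Equiv.Perm (Fin n), (fun c : Fin n → ZMod 2 => c ∘ σ) '' A = dual A

/-! ### basic facts -/

lemma tri_natDegree {n i : ℕ} (hi : i < n) : (X ^ i + 1 : (ZMod 2)[X]).degree < n := by
  refine lt_of_le_of_lt (degree_add_le _ _) ?_
  rw [max_lt_iff]
  constructor
  · rw [degree_X_pow]; exact_mod_cast hi
  · rw [degree_one]; exact_mod_cast (Nat.zero_le i).trans_lt hi

lemma tri_monic {n i : ℕ} (hi : i < n) : (tri n i).Monic := by
  unfold tri
  rw [add_assoc]
  exact monic_X_pow_add (tri_natDegree hi)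

lemma tri_degree {n i : ℕ} (hi : i < n) : (tri n i).degree = n := by
  unfold tri
  rw [add_assoc, degree_add_eq_left_of_degree_lt, degree_X_pow]
  rw [degree_X_pow]
  exact tri_natDegree hi

lemma toPoly_coeff {n : ℕ} (c : Fin n → ZMod 2) (k : Fin n) : (toPoly c).coeff k = c k := by
  unfold toPoly
  rw [finsetSum_coeff]
  simp only [coeff_C_mul, coeff_X_pow]
  rw [Finset.sum_eq_single k]
  · simp
  · intro b _ hb
    rw [if_neg, mul_zero]
    intro h
    exact hb (Fin.ext h.symm)
  · simp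

lemma toPoly_degree {n : ℕ} (c : Fin n → ZMod 2) : (toPoly c).degree < n := by
  rw [degree_lt_iff_coeff_zero]
  intro m hm
  unfold toPoly
  rw [finsetSum_coeff]
  apply Finset.sum_eq_zero
  intro k _
  rw [coeff_C_mul, coeff_X_pow, if_neg, mul_zero]
  have := k.2
  omega

/-- the vector of a polynomial -/
def toVec (n : ℕ) (p : (ZMod 2)[X]) : Fin n → ZMod 2 := fun k => p.coeff k

lemma toPoly_toVec {n : ℕ} {p : (ZMod 2)[X]} (hp : p.degree < n) : toPoly (toVec n p) = p := by
  ext m
  by_cases hm : m < n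
  · have := toPoly_coeff (toVec n p) ⟨m, hm⟩
    simpa [toVec] using this
  · have hm' : n ≤ m := not_lt.mp hm
    rw [(degree_lt_iff_coeff_zero _ _).mp hp m hm',
      (degree_lt_iff_coeff_zero _ _).mp (toPoly_degree _) m hm']

lemma mem_code {n i : ℕ} {g : (ZMod 2)[X]} (hg : g ∣ tri n i) (c : Fin n → ZMod 2) :
    c ∈ code n i g ↔ g ∣ toPoly c := by
  unfold code
  rw [Set.mem_ofPred_eq, Ideal.mem_span_singleton]
  constructor
  · rintro ⟨a, ha⟩
    obtain ⟨a, rfl⟩ := Ideal.Quotient.mk_surjective a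
    rw [← map_mul, Ideal.Quotient.eq, Ideal.mem_span_singleton] at ha
    have h1 : g ∣ toPoly c - g * a := hg.trans ha
    have h2 : g ∣ g * a := dvd_mul_right _ _
    have := dvd_add h1 h2
    simpa using this
  · rintro ⟨a, ha⟩
    rw [ha, map_mul]
    exact dvd_mul_right _ _

/-! ### the form -/

/-- the functional: coefficient of `x^(i-1)` of the remainder modulo the trinomial -/
def phi (n i : ℕ) : (ZMod 2)[X] →ₗ[ZMod 2] ZMod 2 :=
  (lcoeff (ZMod 2) (i - 1)).comp (modByMonicHom (tri n i))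

lemma phi_apply (n i : ℕ) (p : (ZMod 2)[X]) : phi n i p = (p %ₘ tri n i).coeff (i - 1) := rfl

lemma phi_mod {n i : ℕ} (hi : i < n) (p q : (ZMod 2)[X]) (h : tri n i ∣ p - q) :
    phi n i p = phi n i q := by
  rw [← sub_eq_zero, ← map_sub, phi_apply, (modByMonic_eq_zero_iff_dvd (tri_monic hi)).mpr h,
    coeff_zero]

lemma phi_X_pow {n i : ℕ} (h1 : 1 ≤ i) (hi : i < n) (s : ℕ) (hs : s + 2 ≤ 2 * n) :
    phi n i (X ^ s) = if s = i - 1 ∨ s = n + i - 1 then 1 else 0 := by
  induction s using Nat.strong_induction_on with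
  | _ s ih =>
    by_cases hsn : s < n
    · rw [phi_apply, (modByMonic_eq_self_iff (tri_monic hi)).mpr, coeff_X_pow]
      · by_cases h : s = i - 1
        · simp [h]
        · rw [if_neg (by omega), if_neg (by omega)]
      · rw [tri_degree hi, degree_X_pow]
        exact_mod_cast hsn
    · have hsn' : n ≤ s := not_lt.mp hsn
      have h2 : (2 : (ZMod 2)[X]) = 0 := CharTwo.two_eq_zero
      have e1 : phi n i (X ^ s) = phi n i (X ^ (s - n + i) + X ^ (s - n)) := by
        apply phi_mod hi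
        refine ⟨X ^ (s - n), ?_⟩
        unfold tri
        have e2 : (X : (ZMod 2)[X]) ^ s = X ^ n * X ^ (s - n) := by
          rw [← pow_add]; congr 1; omega
        rw [e2, pow_add]
        linear_combination (- X ^ (s - n) * X ^ i - X ^ (s - n)) * h2
      rw [e1, map_add, ih (s - n + i) (by omega) (by omega), ih (s - n) (by omega) (by omega)]
      rw [if_neg (by omega), zero_add]
      by_cases h : s = n + i - 1
      · rw [if_pos (by omega), if_pos (by omega)]
      · rw [if_neg (by omega), if_neg (by omega)]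

/-- the permutation `j ↦ i - 1 - j` modulo `n`, as a function -/
def sigFun (n i : ℕ) (hi : i < n) (j : Fin n) : Fin n :=
  if h : (j : ℕ) < i then ⟨i - 1 - j, by omega⟩ else ⟨n + i - 1 - j, by have := j.2; omega⟩

lemma sigFun_iff {n i : ℕ} (h1 : 1 ≤ i) (hi : i < n) (j k : Fin n) :
    ((j : ℕ) + k = i - 1 ∨ (j : ℕ) + k = n + i - 1) ↔ k = sigFun n i hi j := by
  have hj := j.2
  have hk := k.2
  unfold sigFun
  split_ifs with h
  · rw [Fin.ext_iff]
    simp only
    omega
  · rw [Fin.ext_iff]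
    simp only
    omega

lemma sigFun_invol {n i : ℕ} (h1 : 1 ≤ i) (hi : i < n) :
    Function.Involutive (sigFun n i hi) := by
  intro j
  have h := (sigFun_iff h1 hi j (sigFun n i hi j)).mpr rfl
  symm
  rw [← sigFun_iff h1 hi]
  omega

/-- the permutation `j ↦ i - 1 - j` modulo `n` -/
def sig {n i : ℕ} (h1 : 1 ≤ i) (hi : i < n) : Equiv.Perm (Fin n) :=
  (sigFun_invol h1 hi).toPerm

lemma phi_mul {n i : ℕ} (h1 : 1 ≤ i) (hi : i < n) (u v : Fin n → ZMod 2) :
    phi n i (toPoly u * toPoly v) = ∑ j, u j * v (sig h1 hi j) := by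
  unfold toPoly
  rw [Finset.sum_mul_sum, map_sum]
  apply Finset.sum_congr rfl
  intro j _
  rw [map_sum]
  have hterm : ∀ k : Fin n, phi n i (C (u j) * X ^ (j : ℕ) * (C (v k) * X ^ (k : ℕ)))
      = if k = sigFun n i hi j then u j * v k else 0 := by
    intro k
    have e : C (u j) * X ^ (j : ℕ) * (C (v k) * X ^ (k : ℕ))
        = (u j * v k) • (X ^ ((j : ℕ) + k) : (ZMod 2)[X]) := by
      rw [smul_eq_C_mul, C_mul, pow_add]; ring
    have hj := j.2
    have hk := k.2
    rw [e, map_smul, phi_X_pow h1 hi _ (by omega)]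
    by_cases h : k = sigFun n i hi j
    · rw [if_pos ((sigFun_iff h1 hi j k).mpr h), if_pos h]; simp
    · rw [if_neg (fun h' => h ((sigFun_iff h1 hi j k).mp h')), if_neg h]; simp
  rw [Finset.sum_congr rfl (fun k _ => hterm k)]
  simp only [Finset.sum_ite_eq', Finset.mem_univ, if_true]
  rfl

/-- The dual of the code generated by `g` is a coordinate permutation of the code generated by the
cofactor `h`. -/
lemma dual_code {n i : ℕ} (h1 : 1 ≤ i) (hi : i < n) {g h : (ZMod 2)[X]} (hgh : g * h = tri n i) :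
    dual (code n i g) = (fun c : Fin n → ZMod 2 => c ∘ sig h1 hi) '' code n i h := by
  have hg : g ∣ tri n i := ⟨h, hgh.symm⟩
  have hh : h ∣ tri n i := ⟨g, by rw [← hgh, mul_comm]⟩
  have hg0 : g ≠ 0 := by
    rintro rfl
    rw [zero_mul] at hgh
    exact (tri_monic hi).ne_zero hgh.symm
  apply Set.Subset.antisymm
  · intro u hu
    refine ⟨u ∘ sig h1 hi, ?_, ?_⟩
    · rw [mem_code hh]
      set v := u ∘ sig h1 hi with hv
      have hinv : ∀ j, v (sig h1 hi j) = u j := fun j => by
        simp only [hv, Function.comp]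
        exact congrArg u (sigFun_invol h1 hi j)
      have hphi : ∀ a : (ZMod 2)[X], phi n i (a * (g * toPoly v)) = 0 := by
        intro a
        set w := (a * g) %ₘ tri n i with hw
        have hwdeg : w.degree < n := by
          rw [← tri_degree hi]
          exact degree_modByMonic_lt _ (tri_monic hi)
        have hdiv : tri n i ∣ a * g - w := by
          have := modByMonic_add_div (a * g) (tri n i)
          exact ⟨(a * g) /ₘ tri n i, by rw [hw]; linear_combination this.symm⟩
        have hgw : g ∣ w := by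
          have h3 : g ∣ a * g - w := hg.trans hdiv
          have h4 : g ∣ a * g := dvd_mul_left _ _
          have := dvd_sub h4 h3
          simpa using this
        have hmem : toVec n w ∈ code n i g := by
          rw [mem_code hg, toPoly_toVec hwdeg]; exact hgw
        have h5 := hu _ hmem
        have h6 : phi n i (toPoly (toVec n w) * toPoly v) = 0 := by
          rw [phi_mul h1 hi, ← h5]
          apply Finset.sum_congr rfl
          intro j _
          rw [hinv, mul_comm]
        rw [toPoly_toVec hwdeg] at h6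
        rw [← h6]
        apply phi_mod hi
        have h7 := dvd_mul_of_dvd_left hdiv (toPoly v)
        convert h7 using 1
        ring
      -- hence `t` divides `g * toPoly v`
      have hdvd : tri n i ∣ g * toPoly v := by
        rw [← modByMonic_eq_zero_iff_dvd (tri_monic hi)]
        set r := (g * toPoly v) %ₘ tri n i with hr
        have hrdeg : r.degree < n := by
          rw [← tri_degree hi]
          exact degree_modByMonic_lt _ (tri_monic hi)
        have hdiv : tri n i ∣ g * toPoly v - r := by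
          have := modByMonic_add_div (g * toPoly v) (tri n i)
          exact ⟨(g * toPoly v) /ₘ tri n i, by rw [hr]; linear_combination this.symm⟩
        have hcoef : ∀ j : Fin n, toVec n r (sig h1 hi j) = 0 := by
          intro j
          have h8 := phi_mul h1 hi (Pi.single j 1) (toVec n r)
          rw [toPoly_toVec hrdeg] at h8
          have h9 : ∑ k, (Pi.single j (1 : ZMod 2) : Fin n → ZMod 2) k * toVec n r (sig h1 hi k)
              = toVec n r (sig h1 hi j) := by
            rw [Finset.sum_eq_single j]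
            · simp
            · intro b _ hb
              simp [Pi.single_eq_of_ne hb]
            · simp
          rw [h9] at h8
          rw [← h8, ← hphi (toPoly (Pi.single j 1))]
          symm
          apply phi_mod hi
          have h7 := dvd_mul_of_dvd_right hdiv (toPoly (Pi.single j (1 : ZMod 2)))
          convert h7 using 1
          ring
        rw [← toPoly_toVec hrdeg]
        have : toVec n r = 0 := by
          funext k
          have := hcoef ((sig h1 hi).symm k)
          simpa using this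
        rw [this]
        simp [toPoly]
      rw [← hgh] at hdvd
      exact (mul_dvd_mul_iff_left hg0).mp hdvd
    · funext j
      simp only [Function.comp]
      exact congrArg u (sigFun_invol h1 hi j)
  · rintro _ ⟨v, hv, rfl⟩ c hc
    rw [mem_code hh] at hv
    rw [mem_code hg] at hc
    have h3 := phi_mul h1 hi c v
    have h4 : tri n i ∣ toPoly c * toPoly v - 0 := by
      rw [sub_zero, ← hgh]
      exact mul_dvd_mul hc hv
    rw [phi_mod hi _ _ h4, map_zero] at h3
    rw [h3]
    apply Finset.sum_congr rfl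
    intro j _
    simp only [Function.comp]
    rw [mul_comm]

/-! ### reversal -/

lemma toPoly_rev {n : ℕ} (c : Fin n → ZMod 2) :
    toPoly (c ∘ Fin.revPerm) = reflect (n - 1) (toPoly c) := by
  let R : (ZMod 2)[X] →+ (ZMod 2)[X] :=
    { toFun := reflect (n - 1)
      map_zero' := reflect_zero
      map_add' := fun f g => reflect_add f g _ }
  change _ = R (toPoly c)
  unfold toPoly
  rw [map_sum, ← Equiv.sum_comp Fin.revPerm]
  apply Finset.sum_congr rfl
  intro k _
  change _ = reflect (n - 1) (C (c k) * X ^ (k : ℕ))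
  have hk := k.2
  rw [reflect_C_mul_X_pow, revAt_le (by omega)]
  simp only [Function.comp, Fin.revPerm_apply, Fin.rev_rev, Fin.val_rev]
  congr 2
  omega

/-- reversal of the code generated by `h`, when `g` is the reciprocal of `h` -/
lemma rev_dvd {n d : ℕ} {g h : (ZMod 2)[X]} (hd : d < n) (hh : h.natDegree = d)
    (hr : reflect d h = g) (h0 : h ≠ 0) (c : Fin n → ZMod 2) (hc : h ∣ toPoly c) :
    g ∣ toPoly (c ∘ Fin.revPerm) := by
  rw [toPoly_rev]
  obtain ⟨a, ha⟩ := hc
  by_cases ha0 : a = 0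
  · rw [ha, ha0, mul_zero, reflect_zero]; exact dvd_zero _
  have hdeg : (toPoly c).natDegree < n := by
    have h1 := toPoly_degree c
    rw [ha] at h1 ⊢
    rwa [natDegree_lt_iff_degree_lt (mul_ne_zero h0 ha0)]
  rw [ha, natDegree_mul h0 ha0, hh] at hdeg
  have e : n - 1 = d + (n - 1 - d) := by omega
  rw [ha, e, reflect_mul h a hh.le (by omega), hr]
  exact dvd_mul_right _ _

/-! ### the example -/

/-- the generator of the example -/
def g₀ (k : ℕ) : (ZMod 2)[X] := (X ^ (2 * k) + X ^ k + 1) * (X ^ (4 * k) + X ^ k + 1) ^ 2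

/-- the cofactor -/
def h₀ (k : ℕ) : (ZMod 2)[X] := (X ^ (2 * k) + X ^ k + 1) * (X ^ (4 * k) + X ^ (3 * k) + 1) ^ 2

lemma g₀_mul_h₀ (k : ℕ) : g₀ k * h₀ k = tri (20 * k) (10 * k) := by
  unfold g₀ h₀ tri
  have h2 : (2 : (ZMod 2)[X]) = 0 := CharTwo.two_eq_zero
  have e : ∀ m : ℕ, (X : (ZMod 2)[X]) ^ (m * k) = (X ^ k) ^ m := fun m => by
    rw [← pow_mul, mul_comm]
  rw [e 2, e 4, e 3, e 20, e 10]
  set y : (ZMod 2)[X] := X ^ k
  have e1 : (y ^ 2 + y + 1) * (y ^ 4 + y + 1) * (y ^ 4 + y ^ 3 + 1) = y ^ 10 + y ^ 5 + 1 := by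
    linear_combination (y ^ 9 + y ^ 8 + y ^ 7 + 2 * y ^ 6 + 2 * y ^ 5 + 2 * y ^ 4 + y ^ 3 + y ^ 2
      + y) * h2
  have e2 : (y ^ 2 + y + 1) * (y ^ 4 + y + 1) ^ 2 * ((y ^ 2 + y + 1) * (y ^ 4 + y ^ 3 + 1) ^ 2)
      = ((y ^ 2 + y + 1) * (y ^ 4 + y + 1) * (y ^ 4 + y ^ 3 + 1)) ^ 2 := by ring
  rw [e2, e1]
  linear_combination (y ^ 15 + y ^ 10 + y ^ 5) * h2

lemma two_monic (k : ℕ) (hk : 1 ≤ k) (a b : ℕ) (hab : a < b) :
    (X ^ (b * k) + X ^ (a * k) + 1 : (ZMod 2)[X]).Monic ∧
    (X ^ (b * k) + X ^ (a * k) + 1 : (ZMod 2)[X]).natDegree = b * k := by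
  have h : a * k < b * k := Nat.mul_lt_mul_of_pos_right hab hk
  exact ⟨tri_monic h, natDegree_eq_of_degree_eq_some (tri_degree h)⟩

lemma g₀_monic (k : ℕ) (hk : 1 ≤ k) : (g₀ k).Monic ∧ (g₀ k).natDegree = 10 * k := by
  have h1 := two_monic k hk 1 2 (by norm_num)
  have h2 := two_monic k hk 1 4 (by norm_num)
  rw [one_mul] at h1 h2
  refine ⟨h1.1.mul (h2.1.pow 2), ?_⟩
  unfold g₀
  rw [h1.1.natDegree_mul (h2.1.pow 2), h2.1.natDegree_pow, h1.2, h2.2]
  ring

lemma h₀_monic (k : ℕ) (hk : 1 ≤ k) : (h₀ k).Monic ∧ (h₀ k).natDegree = 10 * k := by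
  have h1 := two_monic k hk 1 2 (by norm_num)
  have h2 := two_monic k hk 3 4 (by norm_num)
  rw [one_mul] at h1
  refine ⟨h1.1.mul (h2.1.pow 2), ?_⟩
  unfold h₀
  rw [h1.1.natDegree_mul (h2.1.pow 2), h2.1.natDegree_pow, h1.2, h2.2]
  ring

lemma reflect_tri (b a : ℕ) (hab : a ≤ b) : reflect b (X ^ b + X ^ a + 1 : (ZMod 2)[X])
    = X ^ b + X ^ (b - a) + 1 := by
  rw [reflect_add, reflect_add, reflect_monomial, reflect_monomial, revAt_le le_rfl, revAt_le hab,
    ← pow_zero (X : (ZMod 2)[X]), reflect_monomial, revAt_le (Nat.zero_le _)]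
  simp
  ring

lemma reflect_g₀ (k : ℕ) (hk : 1 ≤ k) : reflect (10 * k) (g₀ k) = h₀ k := by
  have h1 := two_monic k hk 1 2 (by norm_num)
  have h2 := two_monic k hk 1 4 (by norm_num)
  rw [one_mul] at h1 h2
  unfold g₀ h₀
  have e : 10 * k = 2 * k + (4 * k + 4 * k) := by ring
  rw [e, reflect_mul _ _ h1.2.le, pow_two, reflect_mul _ _ h2.2.le h2.2.le,
    reflect_tri _ _ (by omega), reflect_tri _ _ (by omega), ← pow_two]
  · congr 5
    · congr 2; omega
    · omega
  · rw [h2.1.natDegree_pow, h2.2]; omega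

lemma reflect_h₀ (k : ℕ) (hk : 1 ≤ k) : reflect (10 * k) (h₀ k) = g₀ k := by
  rw [← reflect_g₀ k hk]
  ext m
  rw [coeff_reflect, coeff_reflect, revAt_invol]

lemma sq_ne (k : ℕ) (hk : 1 ≤ k) : g₀ k ^ 2 ≠ tri (20 * k) (10 * k) := by
  intro h
  rw [← g₀_mul_h₀, pow_two] at h
  have h1 := mul_left_cancel₀ (g₀_monic k hk).1.ne_zero h
  unfold g₀ h₀ at h1
  have h2 := two_monic k hk 1 2 (by norm_num)
  rw [one_mul] at h2
  have h3 := mul_left_cancel₀ h2.1.ne_zero h1
  rw [sq_eq_sq_iff_eq_or_eq_neg, CharTwo.neg_eq, or_self] at h3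
  have h4 : (X : (ZMod 2)[X]) ^ k = X ^ (3 * k) := by linear_combination h3
  have h5 := congrArg natDegree h4
  rw [natDegree_X_pow, natDegree_X_pow] at h5
  omega

/-- For every `k ≥ 1` the trinomial `x^(20k) + x^(10k) + 1` has a monic divisor `g` with
`g^2 ≠ x^(20k) + x^(10k) + 1` that generates an iso-dual polycyclic code. -/
theorem result (k : ℕ) (hk : 1 ≤ k) : ∃ g : (ZMod 2)[X], g.Monic ∧ g ∣ tri (20 * k) (10 * k) ∧
    IsoDual (code (20 * k) (10 * k) g) ∧ g ^ 2 ≠ tri (20 * k) (10 * k) := by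
  have h1 : 1 ≤ 10 * k := by omega
  have hi : 10 * k < 20 * k := by omega
  have hdg : g₀ k ∣ tri (20 * k) (10 * k) := ⟨h₀ k, (g₀_mul_h₀ k).symm⟩
  have hdh : h₀ k ∣ tri (20 * k) (10 * k) := ⟨g₀ k, by rw [← g₀_mul_h₀, mul_comm]⟩
  refine ⟨g₀ k, (g₀_monic k hk).1, hdg, ⟨(sig h1 hi).trans Fin.revPerm, ?_⟩, sq_ne k hk⟩
  rw [dual_code h1 hi (g₀_mul_h₀ k)]
  ext u
  constructor
  · rintro ⟨c, hc, rfl⟩
    refine ⟨c ∘ Fin.revPerm, ?_, ?_⟩
    · rw [mem_code hdh]
      rw [mem_code hdg] at hc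
      exact rev_dvd hi (g₀_monic k hk).2 (reflect_g₀ k hk) (g₀_monic k hk).1.ne_zero c hc
    · funext j
      rfl
  · rintro ⟨c, hc, rfl⟩
    refine ⟨c ∘ Fin.revPerm, ?_, ?_⟩
    · rw [mem_code hdg]
      rw [mem_code hdh] at hc
      exact rev_dvd hi (h₀_monic k hk).2 (reflect_h₀ k hk) (h₀_monic k hk).1.ne_zero c hc
    · funext j
      simp

end Pool.Agent.Results.MP_f969e6_lc.IsoDualNotSquare
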